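import Mathlib
import Pool.Agent.R486.TC.FinPts
import Pool.Agent.R486.TC.NoPt
import Pool.Agent.R486.TC.Cmp
import Pool.Agent.U687.MC.RatMain
import Pool.Agent.U687.MC.Bd2

/-!
# One algorithm that settles `X³ + Y³ = A` for an explicit positive share of the `k`-fold prime
# multiples of EVERY number `D` of a family, whatever the group `C_D(ℚ)` is

`C_A : X³ + Y³ = A`. Let `D` be ANY cube-free number, prime to `3`, with exactly one prime factor `2`
modulo `3` and with `n` prime factors `1` modulo `3`. Nothing is assumed on the rank of `C_D(ℚ)`.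
We multiply `D` successively by primes `ℓ_k, …, ℓ_0`, `ℓ_i = j_i` modulo `9` with arbitrary
`j_i = 1, 4, 7` such that `D j_k ⋯ j_0` is not `±1` modulo `9`.

There is ONE primitive recursive test `g : ℕ → Bool` such that

* if `g A = true` then every rational point of `C_A` and of `C_{-A}` is on the diagonal, so that `O` is the
  only rational point, or `A = 2 m³` and `(m, m)` is the only further one: generators are known;
* for every `D` and every choice of the classes `j_i` the iterated density of `g (D ℓ_k ⋯ ℓ_0) = true`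
  exists; it is between `(2/3)^{n+1+k}` and `2/3`, and its distance to
  `∏_{i ≥ 1} (1 - 3^{-i}) = 0.5601…` is at most `(2^n + 1) (2/3)^k`.

The test is the one of the starting file `CubicTwistsCriterion` (there is no splitting of the cube-free
part; `Pool/Agent/R486/TC`), where it is applied to the average over all numbers of the class. The iterated
means are those of `MP_4a9ea6_nt.IteratedPrimeTwists` (helper687, `Pool/Agent/U687/MC`).
-/

set_option autoImplicit false

open scoped Classical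

namespace Pool.Agent.Results.MP_8e0b0b_nt.AlgorithmOnPrimeMultiples

open Filter

/-- all rational points of `X³ + Y³ = A` (except for the point at infinity) are on the diagonal
`X = Y`; then `A = 2 X³` -/
def OnlyDiagonal (A : ℤ) : Prop := ∀ X Y : ℚ, X ^ 3 + Y ^ 3 = A → X = Y

/-- the family: `D` cube-free, prime to `3`, exactly one prime factor congruent to `2` modulo `3` -/
def Family (D : ℕ) : Prop :=
  D ≠ 0 ∧ ¬ 3 ∣ D ∧ (∀ p : ℕ, p.Prime → ¬ p ^ 3 ∣ D) ∧
    ∃ q : ℕ, q.Prime ∧ q % 3 = 2 ∧ q ∣ D ∧ ∀ p : ℕ, p.Prime → p ∣ D → p ≠ q → p % 3 = 1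

/-- the number of the prime factors of `D` that are `1` modulo `3` -/
def ones (D : ℕ) : ℕ := (D.primeFactors.filter fun p => p % 3 = 1).card

/-- the mean of `T ℓ` over the primes `ℓ ≤ X`, `ℓ = j` modulo `9`; the terms of the finitely many `ℓ`
that divide `D` are left out -/
noncomputable def average (j D : ℕ) (T : ℕ → ℝ) (X : ℕ) : ℝ :=
  (∑ l ∈ (Finset.Icc 1 X).filter (fun l => l.Prime ∧ l % 9 = j ∧ ¬ l ∣ D), T l) /
    (((Finset.Icc 1 X).filter fun l => l.Prime ∧ l % 9 = j).card : ℝ)

/-- the iterated limits of the means of `T` over the `k`-fold prime multiples of `D` -/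
noncomputable def iterated (j : ℕ → ℕ) (T : ℕ → ℝ) : ℕ → ℕ → ℝ
  | 0, D => T D
  | k + 1, D => limUnder atTop (average (j k) D (fun l => iterated j T k (D * l)))

/-- the limit of the means over the first prime (of the iterated limits for the others) exists -/
def LimitExists (j : ℕ → ℕ) (T : ℕ → ℝ) (k D : ℕ) : Prop :=
  Tendsto (average (j k) D (fun l => iterated j T k (D * l))) atTop (nhds (iterated j T (k + 1) D))

/-- the classes `j i` are `1, 4, 7`, and `D j_k ⋯ j_0` is not `±1` modulo `9` -/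
def Admissible (j : ℕ → ℕ) (k D : ℕ) : Prop :=
  (∀ i, j i = 1 ∨ j i = 4 ∨ j i = 7) ∧ (D * ∏ i ∈ Finset.range (k + 1), j i) % 9 ≠ 1 ∧
    (D * ∏ i ∈ Finset.range (k + 1), j i) % 9 ≠ 8

/-- `1` if the test `g` succeeds for `N`, and `0` otherwise -/
noncomputable def success (g : ℕ → Bool) (N : ℕ) : ℝ := if g N = true then 1 else 0

/-- `∏_{i ≥ 1} (1 - 3^{-i}) = 0.5601...` -/
noncomputable def limit : ℝ := ∏' i : ℕ, (1 - (1 / 3 : ℝ) ^ (i + 1))

section proof

open Pool.Agent.U687.MC
open Q283.TQ (Bs)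

theorem class_iff (D : ℕ) : Pool.Agent.R486.TC.Class D ↔ Pool.Agent.Y703.CT.Cls D := by
  unfold Pool.Agent.R486.TC.Class Pool.Agent.Y703.CT.Cls Pool.Agent.Y703.CT.Base
  constructor
  · rintro ⟨h1, h2, h3, h4, h5, h6⟩
    exact ⟨⟨h1, h3, h2⟩, h4, h5, h6⟩
  · rintro ⟨⟨h1, h3, h2⟩, h4, h5, h6⟩
    exact ⟨h1, h2, h3, h4, h5, h6⟩

theorem noSplit_iff (D : ℕ) : Pool.Agent.R486.TC.NoSplit D ↔ Pool.Agent.Y703.CT.NoSplit D := Iff.rfl

theorem points {A : ℤ} (h : Pool.Agent.R486.TC.Good A.natAbs) {X Y : ℚ} (hXY : X ^ 3 + Y ^ 3 = A) :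
    X = Y := by
  obtain ⟨D, n, h1, h2, h3, h4⟩ := h
  have hcf : ∀ p : ℕ, p.Prime → ¬ p ^ 3 ∣ D := h3.2.1
  have hD1 : 1 < D := by
    have e0 := h3.1
    have e1 := h3.2.2.2.1
    rcases Nat.lt_or_ge 1 D with h | h
    · exact h
    · exfalso
      have : D = 1 := by omega
      rw [this] at e1
      norm_num at e1
  have hfin := Pool.Agent.R486.TC.fin_of ((class_iff D).1 h3) ((noSplit_iff D).1 h4)
  have hn : (n : ℚ) ≠ 0 := by exact_mod_cast h2
  have key : ∀ s : ℚ, (s = 1 ∨ s = -1) → (A : ℚ) = s * (D * (n : ℚ) ^ 3) → X = Y := by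
    intro s hs hA
    have hs3 : s ^ 3 = s := by rcases hs with rfl | rfl <;> norm_num
    have hss : s * s = 1 := by rcases hs with rfl | rfl <;> norm_num
    have hs0 : s ≠ 0 := by rcases hs with rfl | rfl <;> norm_num
    have h5 : (s * X / n) ^ 3 + (s * Y / n) ^ 3 = D := by
      have h6 : (s * X / n) ^ 3 + (s * Y / n) ^ 3 = s ^ 3 * (X ^ 3 + Y ^ 3) / (n : ℚ) ^ 3 := by
        field_simp
      rw [h6, hXY, hA, hs3]
      have h7 : s * (s * (D * (n : ℚ) ^ 3)) = D * (n : ℚ) ^ 3 := by
        rw [← mul_assoc, hss, one_mul]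
      rw [h7]
      field_simp
    have h8 := Pool.Agent.R486.TC.diag_of_finite hcf hD1 hfin h5
    rw [div_left_inj' hn] at h8
    exact mul_left_cancel₀ hs0 h8
  rcases Int.natAbs_eq A with hA | hA
  · refine key 1 (Or.inl rfl) ?_
    rw [one_mul, hA, h1]
    push_cast
    ring
  · refine key (-1) (Or.inr rfl) ?_
    rw [hA, h1]
    push_cast
    ring

/-- a cube-free number of the class: the test is the absence of splittings -/
theorem good_iff {N : ℕ} (hN : Pool.Agent.Y703.CT.Cls N) :
    Pool.Agent.R486.TC.Good N ↔ Pool.Agent.Y703.CT.NoSplit N := by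
  constructor
  · rintro ⟨D, n, h1, h2, h3, h4⟩
    have hn : n = 1 := by
      by_contra hn
      obtain ⟨p, hp, hpn⟩ := Nat.exists_prime_and_dvd hn
      exact hN.1.2.2 p hp (by rw [h1]; exact (pow_dvd_pow_of_dvd hpn 3).trans (Dvd.intro_left D rfl))
    rw [hn, one_pow, mul_one] at h1
    rw [h1]
    exact (noSplit_iff D).1 h4
  · intro h
    exact ⟨N, 1, by ring, one_ne_zero, (class_iff N).2 hN, (noSplit_iff N).2 h⟩

theorem iterated_eq (j : ℕ → ℕ) (T : ℕ → ℝ) (k : ℕ) : ∀ D : ℕ, iterated j T k D = itq j T k D := by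
  induction k with
  | zero =>
    intro D
    rfl
  | succ k ih =>
    intro D
    show limUnder atTop (average (j k) D (fun l => iterated j T k (D * l))) =
      limUnder atTop (aq (j k) D (fun l => itq j T k (D * l)))
    have h : (fun l => iterated j T k (D * l)) = fun l => itq j T k (D * l) := funext fun l => ih _
    rw [h]
    rfl

theorem bs {D : ℕ} (h : Family D) : Bs D := ⟨⟨h.1, h.2.1, h.2.2.1⟩, h.2.2.2⟩

theorem main {g : ℕ → Bool} (hg : ∀ N, g N = true ↔ Pool.Agent.R486.TC.Good N) {D : ℕ}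
    (hD : Family D) {j : ℕ → ℕ} {k : ℕ} (hj : Admissible j k D) :
    ∃ R : Matrix (Fin (ones D)) (Fin (ones D + 1)) (ZMod 3),
      LimitExists j (success g) k D ∧ iterated j (success g) (k + 1) D = d2 k R 0 := by
  obtain ⟨P, hP⟩ := exists_en (bs hD)
  obtain ⟨g1, g2⟩ := itq_main j hj.1 1 0 (success g) (fun N hN => by
    unfold success
    by_cases h : Pool.Agent.Y703.CT.NoSplit N
    · rw [if_pos h, if_pos ((hg N).2 ((good_iff hN).2 h))]
    · rw [if_neg h, if_neg fun h' => h ((good_iff hN).1 ((hg N).1 h'))]) k D _ P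
    (bs hD) hP hj.2.1 hj.2.2
  have hl : (fun l => iterated j (success g) k (D * l)) = fun l => itq j (success g) k (D * l) :=
    funext fun l => iterated_eq j (success g) k _
  rw [EG_uw] at g1 g2
  have e0 : (0 : ℝ) + (1 - 0) * d2 k (RD D P) 0 = d2 k (RD D P) 0 := by ring
  rw [e0] at g1 g2
  have i1 : iterated j (success g) (k + 1) D = d2 k (RD D P) 0 :=
    (iterated_eq j (success g) (k + 1) D).trans g2
  refine ⟨RD D P, ?_, i1⟩
  unfold LimitExists
  rw [i1, hl]
  exact g1

end proof

open Pool.Agent.U687.MC in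
/-- **One algorithm for the prime multiples of every `D`.** -/
theorem result :
    ∃ g : ℕ → Bool, Primrec g ∧
      (∀ A : ℕ, g A = true → A ≠ 0 ∧ OnlyDiagonal A ∧ OnlyDiagonal (-A)) ∧
      (∀ D : ℕ, Family D → ∀ (j : ℕ → ℕ) (k : ℕ), Admissible j k D →
        LimitExists j (success g) k D ∧
        (2 / 3 : ℝ) ^ (ones D + 1 + k) ≤ iterated j (success g) (k + 1) D ∧
        iterated j (success g) (k + 1) D ≤ 2 / 3 ∧
        |iterated j (success g) (k + 1) D - limit| ≤ (2 ^ (ones D) + 1) * (2 / 3) ^ k) ∧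
      (0.56 : ℝ) < limit ∧ limit < 0.5602 := by
  have hdec : DecidablePred Pool.Agent.R486.TC.Good := Classical.decPred _
  have hprim : Primrec (fun N : ℕ => decide (Pool.Agent.R486.TC.Good N)) := by
    obtain ⟨hd, h⟩ := Pool.Agent.R486.TC.good_primrec
    refine h.of_eq fun N => ?_
    exact decide_eq_decide.2 Iff.rfl
  refine ⟨fun N => decide (Pool.Agent.R486.TC.Good N), hprim, ?_, ?_, ppi_bounds⟩
  · intro A hA
    have h : Pool.Agent.R486.TC.Good A := of_decide_eq_true hA
    refine ⟨?_, fun X Y hXY => points (A := (A : ℤ)) (by simpa using h) hXY,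
      fun X Y hXY => points (A := -(A : ℤ)) (by simpa using h) hXY⟩
    obtain ⟨D, n, h1, h2, h3, -⟩ := h
    rw [h1]
    exact Nat.mul_ne_zero h3.1 (pow_ne_zero 3 h2)
  · intro D hD j k hj
    obtain ⟨R, h1, h2⟩ := main (g := fun N => decide (Pool.Agent.R486.TC.Good N))
      (fun N => decide_eq_true_iff) hD hj
    refine ⟨h1, ?_, ?_, ?_⟩
    · rw [h2]
      exact d2_ge k _
    · rw [h2]
      exact d2_le k _
    · rw [h2]
      exact conv2 k _

end Pool.Agent.Results.MP_8e0b0b_nt.AlgorithmOnPrimeMultiples
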