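import Pool.Agent.Results.MP_8b7eba_nt.CubicTwistsPrimeSets
import Pool.Agent.R486.TC.FinPts
import Pool.Agent.R486.TC.NoPt
import Pool.Agent.R486.TC.Cmp

/-!
# One algorithm for the rational points of `X³ + Y³ = A`, on ARBITRARY sets of primes `≡ 1` modulo `3`

`C_A : X³ + Y³ = A`. There is ONE primitive recursive function `g` that answers, for a natural number `A`,
with a finite list of points or with `none` (no answer), such that

* (always correct) if `g A = some L`, then `L` is the list of ALL affine rational points of `C_A`, and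
  the list of their negatives is that of `C_{-A}` (`L` is empty, or `A = 2 m³` and `L = [(m, m)]`);
* (when it answers) if and only if `A = N m³`, where `N` is cube-free, prime to `3`, not `±1` modulo `9`,
  with exactly one prime divisor `≡ 2` modulo `3`, `E_N(ℚ)` is finite and `Ш(E_N/ℚ)[3^∞] = 0`, for the curve
  `E_N : y² + N y = x³`, `3`-isogenous to `C_N`.

Then `g` answers for all powers `q`, `q²` of the primes `q ≡ 2, 5` modulo `9`. Call `p ≡ 1` modulo `3`
admissible for `D` if it does not divide `D` and `D` is not a cube modulo `p`. Let `D` be in the class, and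
let `g` answer for `D`, for example `D = q`, `q²`:

* PAIRS. `g` answers for `D p r²` or for `D p² r`, for all admissible `p ≠ r` of the same type; for `D = q`,
  `q²` this is so for ANY two primes `p ≡ r` modulo `9`, `≡ 1` modulo `3`, modulo which `q` is no cube.
* FINITE SETS. For ANY finite set of `N' ≥ N = 9 ^ (18 m + ω(D) + 1)` admissible primes and for at least
  `(N' choose 2 m) / (N choose 2 m)` of its subsets `B` with `2 m` elements there are exponents
  `x_p = 1, 2` such that `g` answers for `D ∏ p ^ x_p`, `p ∈ B`.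
* INFINITE SETS. Let `S` be ANY infinite set of primes `≡ 1` modulo `3` (arbitrarily sparse, computable or
  not). Infinitely many primes of `S` are admissible if and only if there are an infinite `T ⊆ S` and
  `σ = 1` or `2` such that `g` answers for ALL the numbers
  `D p_0^σ p_1^(3-σ) p_2^σ p_3^(3-σ) ⋯ p_(2m-1)^(3-σ)`, `m ≥ 0`, `p_0 < p_1 < ⋯ < p_(2m-1)` in `T`.
* SHARPNESS. If `D` is a cube modulo all `p ∈ B ≠ ∅` and `∏ p ^ x_p` is a cube modulo all the primes
  `≡ 1` modulo `3` that divide `D`, then `g` does not answer for `D ∏ p ^ x_p` if it is in the class.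

The test (there is no splitting of the cube-free part) and its correctness are those of the starting file
`CubicTwistsCriterion` (`Pool/Agent/R486/TC`), where it is applied to the average over all numbers
`A ≤ X`; the new input is `MP_8b7eba_nt.CubicTwistsPrimeSets` (helper880).
-/

set_option autoImplicit false
set_option maxHeartbeats 1000000

open scoped Classical

namespace Pool.Agent.Results.MP_8e0b0b_nt.AlgorithmOnPrimeSets

open Finset

open Pool.Agent.Results.MP_8b7eba_nt (CubicTwistsPrimeSets.result)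

open Pool.Agent.Results.MP_8b7eba_nt.CubicTwistsPrimeSets (curve TrivialThree Class CubeMod Admissible
  SameType)

/-- The answers of `g` are correct: `g A = some L` means that `A ≠ 0`, that the points of `L` are ALL the
affine rational points of `X³ + Y³ = A`, and that their negatives are ALL those of `X³ + Y³ = -A`. -/
def Correct (g : ℕ → Option (List (ℕ × ℕ))) : Prop :=
  ∀ (A : ℕ) (L : List (ℕ × ℕ)), g A = some L → A ≠ 0 ∧
    (∀ X Y : ℚ, X ^ 3 + Y ^ 3 = (A : ℚ) ↔ ∃ l ∈ L, X = (l.1 : ℚ) ∧ Y = (l.2 : ℚ)) ∧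
    ∀ X Y : ℚ, X ^ 3 + Y ^ 3 = -(A : ℚ) ↔ ∃ l ∈ L, X = -(l.1 : ℚ) ∧ Y = -(l.2 : ℚ)

/-- `g` answers with a list -/
def Answers (g : ℕ → Option (List (ℕ × ℕ))) (A : ℕ) : Prop := ∃ L, g A = some L

/-- the number `D p_0^σ p_1^(3-σ) p_2^σ p_3^(3-σ) ⋯ p_(2m-1)^(3-σ)`, `p_i = a i` -/
def alternating (D σ m : ℕ) (a : ℕ → ℕ) : ℕ :=
  D * ∏ i ∈ range m, (a (2 * i) ^ σ * a (2 * i + 1) ^ (3 - σ))

section proof

open Pool.Agent.U880.CTA
open Pool.Agent.Results.MP_8b7eba_nt.CubicTwistsPrimeSets (Good good_iff class_iff three_iff)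
open Pool.Agent.Y703.CT (Cls NoSplit Triv3)

theorem cls_iff (D : ℕ) : Pool.Agent.R486.TC.Class D ↔ Cls D := by
  unfold Pool.Agent.R486.TC.Class Pool.Agent.Y703.CT.Cls Pool.Agent.Y703.CT.Base
  constructor
  · rintro ⟨h1, h2, h3, h4, h5, h6⟩
    exact ⟨⟨h1, h3, h2⟩, h4, h5, h6⟩
  · rintro ⟨⟨h1, h3, h2⟩, h4, h5, h6⟩
    exact ⟨h1, h2, h3, h4, h5, h6⟩

theorem ns_iff (D : ℕ) : Pool.Agent.R486.TC.NoSplit D ↔ NoSplit D := Iff.rfl

/-- the test -/
theorem test_iff (A : ℕ) : Pool.Agent.R486.TC.Good A ↔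
    ∃ N m : ℕ, 1 ≤ m ∧ A = N * m ^ 3 ∧ Class N ∧ TrivialThree N := by
  unfold Pool.Agent.R486.TC.Good
  constructor
  · rintro ⟨N, m, h1, h2, h3, h4⟩
    have hC := (cls_iff N).1 h3
    exact ⟨N, m, by omega, h1, (class_iff N).2 hC,
      (three_iff N).2 ((Q283.Q3N.triv_iff hC).2 ((ns_iff N).1 h4))⟩
  · rintro ⟨N, m, h1, h2, h3, h4⟩
    have hC := (class_iff N).1 h3
    exact ⟨N, m, h2, by omega, (cls_iff N).2 hC,
      (ns_iff N).2 ((Q283.Q3N.triv_iff hC).1 ((three_iff N).1 h4))⟩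

/-- a cube-free number: the test is goodness -/
theorem good_of {A : ℕ} (hA : ∀ p : ℕ, p.Prime → ¬ p ^ 3 ∣ A) :
    Pool.Agent.R486.TC.Good A ↔ Good A := by
  rw [good_iff]
  constructor
  · rintro ⟨N, m, h1, h2, h3, h4⟩
    have hm : m = 1 := by
      by_contra hm
      obtain ⟨p, hp, hpm⟩ := Nat.exists_prime_and_dvd hm
      exact hA p hp (by rw [h1]; exact (pow_dvd_pow_of_dvd hpm 3).trans (Dvd.intro_left N rfl))
    rw [hm, one_pow, mul_one] at h1
    rw [h1]
    exact ⟨(cls_iff N).1 h3, (ns_iff N).1 h4⟩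
  · rintro ⟨h1, h2⟩
    exact ⟨A, 1, by ring, one_ne_zero, (cls_iff A).2 h1, (ns_iff A).2 h2⟩

theorem good_test {A : ℕ} (h : Good A) : Pool.Agent.R486.TC.Good A :=
  (good_of ((good_iff A).1 h).1.1.2.2).2 h

/-- the list of the `(m, m)`, `2 m³ = A` -/
def lst (A : ℕ) : List (ℕ × ℕ) :=
  (List.range (A + 1)).flatMap fun m => if 2 * (m * (m * m)) = A then [(m, m)] else []

theorem mem_lst {A : ℕ} {l : ℕ × ℕ} : l ∈ lst A ↔ l.1 = l.2 ∧ 2 * l.1 ^ 3 = A := by
  unfold lst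
  rw [List.mem_flatMap]
  constructor
  · rintro ⟨m, hm, hl⟩
    by_cases h : 2 * (m * (m * m)) = A
    · rw [if_pos h, List.mem_singleton] at hl
      rw [hl]
      refine ⟨rfl, ?_⟩
      show 2 * m ^ 3 = A
      rw [← h]
      ring
    · rw [if_neg h] at hl
      simp at hl
  · rintro ⟨h1, h2⟩
    obtain ⟨m, n⟩ := l
    simp only at h1 h2
    subst h1
    refine ⟨m, ?_, ?_⟩
    · rw [List.mem_range]
      have h3 : m ≤ m ^ 3 := Nat.le_self_pow (by norm_num) m
      omega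
    · rw [if_pos (by rw [← h2]; ring)]
      exact List.mem_singleton.2 rfl

theorem prim_lst : Primrec lst := by
  unfold lst
  refine Primrec.list_flatMap (Primrec.list_range.comp (Primrec.nat_add.comp Primrec.id
    (Primrec.const 1))) ?_
  refine Primrec.ite (Primrec.eq.comp ?_ Primrec.fst) ?_ (Primrec.const [])
  · exact Primrec.nat_mul.comp (Primrec.const 2) (Primrec.nat_mul.comp Primrec.snd
      (Primrec.nat_mul.comp Primrec.snd Primrec.snd))
  · exact Primrec.list_cons.comp (Primrec.pair Primrec.snd Primrec.snd) (Primrec.const [])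

/-- the algorithm -/
noncomputable def gg (A : ℕ) : Option (List (ℕ × ℕ)) :=
  if Pool.Agent.R486.TC.Good A then some (lst A) else none

theorem prim_gg : Primrec gg := by
  unfold gg
  exact Primrec.ite Pool.Agent.R486.TC.good_primrec (Primrec.option_some.comp prim_lst)
    (Primrec.const none)

theorem ans_iff (A : ℕ) : Answers gg A ↔ Pool.Agent.R486.TC.Good A := by
  unfold Answers gg
  constructor
  · rintro ⟨L, h⟩
    by_contra hn
    rw [if_neg hn] at h
    exact absurd h (by simp)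
  · intro h
    exact ⟨lst A, if_pos h⟩

/-- all the points are on the diagonal -/
theorem diag {A : ℕ} (h : Pool.Agent.R486.TC.Good A) {X Y : ℚ} (hXY : X ^ 3 + Y ^ 3 = A) : X = Y := by
  obtain ⟨D, n, h1, h2, h3, h4⟩ := h
  have hcf : ∀ p : ℕ, p.Prime → ¬ p ^ 3 ∣ D := h3.2.1
  have hD1 : 1 < D := by
    have e0 := h3.1
    have e1 := h3.2.2.2.1
    rcases Nat.lt_or_ge 1 D with h | h
    · exact h
    · exfalso
      have : D = 1 := by omega
      rw [this] at e1
      norm_num at e1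
  have hfin := Pool.Agent.R486.TC.fin_of ((cls_iff D).1 h3) ((ns_iff D).1 h4)
  have hn : (n : ℚ) ≠ 0 := by exact_mod_cast h2
  have h5 : (X / n) ^ 3 + (Y / n) ^ 3 = D := by
    rw [div_pow, div_pow, ← add_div, hXY, h1]
    push_cast
    field_simp
  have h8 := Pool.Agent.R486.TC.diag_of_finite hcf hD1 hfin h5
  exact (div_left_inj' hn).1 h8

theorem rat_cube {A : ℕ} {X : ℚ} (hA : A ≠ 0) (h : 2 * X ^ 3 = A) :
    ∃ m : ℕ, X = m ∧ 2 * m ^ 3 = A := by
  have h0 : 0 ≤ X := by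
    by_contra h1
    push Not at h1
    have h2 : X ^ 3 < 0 := by
      have : X ^ 3 = X * X ^ 2 := by ring
      rw [this]
      exact mul_neg_of_neg_of_pos h1 (sq_pos_of_neg h1)
    have h3 : (0 : ℚ) ≤ A := Nat.cast_nonneg A
    linarith
  have h1 : IsIntegral ℤ ((2 * X) ^ 3) := by
    have e : (2 * X) ^ 3 = (((4 * A : ℕ) : ℤ) : ℚ) := by
      push_cast
      rw [← h]
      ring
    rw [e]
    exact isIntegral_algebraMap (R := ℤ) (A := ℚ) (x := ((4 * A : ℕ) : ℤ))
  obtain ⟨y, hy⟩ := IsIntegrallyClosed.exists_algebraMap_eq_of_isIntegral_pow (R := ℤ) (K := ℚ)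
    (by norm_num : 0 < 3) h1
  have hy' : (y : ℚ) = 2 * X := hy
  have hyA : y ^ 3 = 4 * (A : ℤ) := by
    have : ((y ^ 3 : ℤ) : ℚ) = ((4 * (A : ℤ) : ℤ) : ℚ) := by
      push_cast
      rw [hy', ← h]
      ring
    exact_mod_cast this
  have h2 : (2 : ℤ) ∣ y := by
    refine Int.prime_two.dvd_of_dvd_pow (n := 3) ?_
    rw [hyA]
    exact ⟨2 * A, by ring⟩
  obtain ⟨z, hz⟩ := h2
  have hXz : X = z := by
    have : (2 : ℚ) * X = 2 * z := by
      rw [← hy', hz]
      push_cast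
      ring
    linarith
  have hz0 : 0 ≤ z := by
    have : (0 : ℚ) ≤ z := by rw [← hXz]; exact h0
    exact_mod_cast this
  obtain ⟨m, rfl⟩ := Int.eq_ofNat_of_zero_le hz0
  refine ⟨m, by rw [hXz]; rfl, ?_⟩
  have : ((2 * m ^ 3 : ℕ) : ℚ) = (A : ℚ) := by
    push_cast
    rw [← h, hXz]
    push_cast
    ring
  exact_mod_cast this

theorem pts {A : ℕ} (h : Pool.Agent.R486.TC.Good A) (hA : A ≠ 0) (X Y : ℚ) :
    X ^ 3 + Y ^ 3 = (A : ℚ) ↔ ∃ l ∈ lst A, X = (l.1 : ℚ) ∧ Y = (l.2 : ℚ) := by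
  constructor
  · intro he
    have hd := diag h he
    subst hd
    obtain ⟨m, hm, h2⟩ := rat_cube hA (by rw [← he]; ring)
    exact ⟨(m, m), mem_lst.2 ⟨rfl, h2⟩, hm, hm⟩
  · rintro ⟨l, hl, rfl, rfl⟩
    obtain ⟨h1, h2⟩ := mem_lst.1 hl
    rw [← h1, ← h2]
    push_cast
    ring

theorem correct : Correct gg := by
  intro A L h
  have hg : Pool.Agent.R486.TC.Good A := (ans_iff A).1 ⟨L, h⟩
  have hL : L = lst A := by
    unfold gg at h
    rw [if_pos hg] at h
    exact (Option.some.inj h).symm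
  have hA : A ≠ 0 := by
    obtain ⟨D, n, h1, h2, h3, -⟩ := hg
    rw [h1]
    exact Nat.mul_ne_zero h3.1 (pow_ne_zero 3 h2)
  refine ⟨hA, fun X Y => by rw [hL]; exact pts hg hA X Y, fun X Y => ?_⟩
  have e : X ^ 3 + Y ^ 3 = -(A : ℚ) ↔ (-X) ^ 3 + (-Y) ^ 3 = (A : ℚ) := by
    constructor
    · intro h'
      linear_combination -h'
    · intro h'
      linear_combination -h'
  rw [e, pts hg hA, hL]
  constructor
  · rintro ⟨l, hl, h1, h2⟩
    exact ⟨l, hl, by rw [← h1, neg_neg], by rw [← h2, neg_neg]⟩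
  · rintro ⟨l, hl, h1, h2⟩
    exact ⟨l, hl, by rw [h1, neg_neg], by rw [h2, neg_neg]⟩

theorem free_prod {D : ℕ} (hD : Class D) {A : Finset ℕ} {x : ℕ → ℕ} (hok : Ok D A x) :
    ∀ p : ℕ, p.Prime → ¬ p ^ 3 ∣ D * ∏ p ∈ A, p ^ x p := by
  intro p hp h
  have hD0 : D ≠ 0 := hD.1
  have h1 := (hp.pow_dvd_iff_le_factorization (Nat.mul_ne_zero hD0 (prod_ne hok))).1 h
  rw [Nat.factorization_mul hD0 (prod_ne hok), Finsupp.add_apply, fac_prod hok.prime] at h1
  by_cases hpA : p ∈ A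
  · rw [if_pos hpA, Nat.factorization_eq_zero_of_not_dvd (hok.ndvd p hpA)] at h1
    rcases hok.ex p hpA with h | h <;> omega
  · rw [if_neg hpA, add_zero] at h1
    exact hD.2.2.1 p hp ((hp.pow_dvd_iff_le_factorization hD0).2 h1)

theorem free_seq {D : ℕ} (hD : Class D) {a : ℕ → ℕ} (ha : StrictMono a) {σ : ℕ}
    (hσ : σ = 1 ∨ σ = 2) (m : ℕ) (h : ∀ i, (a i).Prime ∧ a i % 3 = 1 ∧ ¬ a i ∣ D) :
    ∀ p : ℕ, p.Prime → ¬ p ^ 3 ∣ alternating D σ m a := by
  obtain ⟨x, hx, hprod⟩ := exists_x (a := a) (m := m) (fun i _ j _ hij => ha.injective hij) σ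
  unfold alternating
  rw [hprod]
  refine free_prod hD ⟨fun p hp => ?_, fun p hp => ?_, fun p hp => ?_, fun p hp => ?_⟩
  all_goals obtain ⟨i, hi, rfl⟩ := mem_image.1 hp
  · exact (h i).1
  · exact (h i).2.1
  · exact (h i).2.2
  · rw [hx i (mem_range.1 hi)]
    exact ex_or hσ i

theorem good_D {D : ℕ} (hD : Class D) (h : Answers gg D) : Good D :=
  (good_of hD.2.2.1).1 ((ans_iff D).1 h)

theorem inf_part {D : ℕ} (hD : Class D) (h : Answers gg D) (S : Set ℕ)
    (hS : ∀ p ∈ S, p.Prime ∧ p % 3 = 1) :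
    (∃ T ⊆ S, T.Infinite ∧ ∃ σ : ℕ, (σ = 1 ∨ σ = 2) ∧ ∀ (m : ℕ) (a : ℕ → ℕ), StrictMono a →
      (∀ i, a i ∈ T) → Answers gg (alternating D σ m a)) ↔ {p ∈ S | Admissible D p}.Infinite := by
  have e : {p ∈ S | Admissible D p} = {p ∈ S | ¬ p ∣ D ∧ ¬ CubeMod p D} := by
    ext p
    constructor
    · rintro ⟨h1, h2⟩
      exact ⟨h1, h2.2.2.1, h2.2.2.2⟩
    · rintro ⟨h1, h2, h3⟩
      exact ⟨h1, (hS p h1).1, (hS p h1).2, h2, h3⟩
  rw [e, ← ((CubicTwistsPrimeSets.result.2.1 D (good_D hD h)).2.2 S hS)]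
  constructor
  · rintro ⟨T, hTS, hT, σ, hσ, hg⟩
    have hT' : (T \ (D.primeFactors : Set ℕ)).Infinite := hT.diff (Finset.finite_toSet _)
    refine ⟨T \ (D.primeFactors : Set ℕ), fun p hp => hTS hp.1, hT', σ, hσ, fun m a ha hm => ?_⟩
    have h1 := hg m a ha fun i => (hm i).1
    refine (good_of (free_seq hD ha hσ m fun i => ?_)).1 ((ans_iff _).1 h1)
    obtain ⟨h2, h3⟩ := hS _ (hTS (hm i).1)
    exact ⟨h2, h3, fun h4 => (hm i).2 (mem_coe.2 (Nat.mem_primeFactors.2 ⟨h2, h4, hD.1⟩))⟩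
  · rintro ⟨T, hTS, hT, σ, hσ, hg⟩
    exact ⟨T, hTS, hT, σ, hσ, fun m a ha hm => (ans_iff _).2 (good_test (hg m a ha hm))⟩

theorem fin_part {D : ℕ} (hD : Class D) (h : Answers gg D) (m : ℕ) (S : Finset ℕ)
    (hS : ∀ p ∈ S, Admissible D p) (hc : 9 ^ (18 * m + D.primeFactors.card + 1) ≤ S.card) :
    S.card.choose (2 * m) ≤ (9 ^ (18 * m + D.primeFactors.card + 1)).choose (2 * m) *
      ((S.powersetCard (2 * m)).filter fun B => ∃ x : ℕ → ℕ, (∀ p ∈ B, x p = 1 ∨ x p = 2) ∧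
        Answers gg (D * ∏ p ∈ B, p ^ x p)).card := by
  refine ((CubicTwistsPrimeSets.result.2.1 D (good_D hD h)).2.1 m S hS hc).trans
    (Nat.mul_le_mul le_rfl (card_le_card ?_))
  refine monotone_filter_right _ fun B _ hB => ?_
  obtain ⟨x, h1, h2⟩ := hB
  exact ⟨x, h1, (ans_iff _).2 (good_test h2)⟩

theorem sharp {D : ℕ} {B : Finset ℕ} {x : ℕ → ℕ} (hD : Class D) (hB : B.Nonempty)
    (h : ∀ p ∈ B, p.Prime ∧ p % 3 = 1 ∧ ¬ p ∣ D ∧ (x p = 1 ∨ x p = 2) ∧ CubeMod p D)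
    (h2 : ∀ d ∈ D.primeFactors, d % 3 = 1 → CubeMod d (∏ p ∈ B, p ^ x p))
    (hN : Class (D * ∏ p ∈ B, p ^ x p)) : ¬ Answers gg (D * ∏ p ∈ B, p ^ x p) := by
  intro ha
  exact CubicTwistsPrimeSets.result.2.2 D B x hD hB h h2 hN (good_D hN ha).2.1

end proof

/-- **One algorithm on arbitrary sets of primes.** There is a primitive recursive `g` such that: (1) its
answers are the lists of all affine rational points of `C_A` and (with signs) of `C_{-A}`; (2) it answers if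
and only if `A = N m³`, `N` in the class, `E_N(ℚ)` finite, `Ш(E_N/ℚ)[3^∞] = 0`; (3) `q`, `q²` and pairs
of primes; (4) pairs, finite sets and infinite sets of primes for every `D` of the class for which `g`
answers; (5) sharpness. -/
theorem result :
    ∃ g : ℕ → Option (List (ℕ × ℕ)), Primrec g ∧ Correct g ∧
      (∀ A : ℕ, Answers g A ↔
        ∃ N m : ℕ, 1 ≤ m ∧ A = N * m ^ 3 ∧ Class N ∧ TrivialThree N) ∧
      (∀ q k : ℕ, q.Prime → (q % 9 = 2 ∨ q % 9 = 5) → (k = 1 ∨ k = 2) →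
        Class (q ^ k) ∧ Answers g (q ^ k) ∧
        ∀ p r : ℕ, p.Prime → r.Prime → p ≠ r → p % 3 = 1 → p % 9 = r % 9 →
          ¬ CubeMod p q → ¬ CubeMod r q →
          Answers g (q ^ k * (p * r ^ 2)) ∨ Answers g (q ^ k * (p ^ 2 * r))) ∧
      (∀ D : ℕ, Class D → Answers g D →
        (∀ p r : ℕ, Admissible D p → Admissible D r → p ≠ r → SameType D p r →
          Answers g (D * (p * r ^ 2)) ∨ Answers g (D * (p ^ 2 * r))) ∧
        (∀ (m : ℕ) (S : Finset ℕ), (∀ p ∈ S, Admissible D p) →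
          9 ^ (18 * m + D.primeFactors.card + 1) ≤ S.card →
          S.card.choose (2 * m) ≤ (9 ^ (18 * m + D.primeFactors.card + 1)).choose (2 * m) *
            ((S.powersetCard (2 * m)).filter fun B => ∃ x : ℕ → ℕ, (∀ p ∈ B, x p = 1 ∨ x p = 2) ∧
              Answers g (D * ∏ p ∈ B, p ^ x p)).card) ∧
        ∀ S : Set ℕ, (∀ p ∈ S, p.Prime ∧ p % 3 = 1) →
          ((∃ T ⊆ S, T.Infinite ∧ ∃ σ : ℕ, (σ = 1 ∨ σ = 2) ∧ ∀ (m : ℕ) (a : ℕ → ℕ),
            StrictMono a → (∀ i, a i ∈ T) → Answers g (alternating D σ m a)) ↔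
            {p ∈ S | Admissible D p}.Infinite)) ∧
      ∀ (D : ℕ) (B : Finset ℕ) (x : ℕ → ℕ), Class D → B.Nonempty →
        (∀ p ∈ B, p.Prime ∧ p % 3 = 1 ∧ ¬ p ∣ D ∧ (x p = 1 ∨ x p = 2) ∧ CubeMod p D) →
        (∀ d ∈ D.primeFactors, d % 3 = 1 → CubeMod d (∏ p ∈ B, p ^ x p)) →
        Class (D * ∏ p ∈ B, p ^ x p) → ¬ Answers g (D * ∏ p ∈ B, p ^ x p) := by
  refine ⟨gg, prim_gg, correct, fun A => (ans_iff A).trans (test_iff A), ?_, ?_, ?_⟩
  · intro q k hq h9 hk
    obtain ⟨h1, h2⟩ := CubicTwistsPrimeSets.result.1 q k hq h9 hk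
    refine ⟨h1.1, (ans_iff _).2 (good_test h1), fun p r hp hr hne h3 h4 h5 h6 => ?_⟩
    exact (h2 p r hp hr hne h3 h4 h5 h6).imp (fun h => (ans_iff _).2 (good_test h))
      fun h => (ans_iff _).2 (good_test h)
  · intro D hD ha
    refine ⟨fun p r hp hr hne hs => ?_, fun m S hS hc => fin_part hD ha m S hS hc,
      fun S hS => inf_part hD ha S hS⟩
    exact ((CubicTwistsPrimeSets.result.2.1 D (good_D hD ha)).1 p r hp hr hne hs).imp
      (fun h => (ans_iff _).2 (good_test h)) fun h => (ans_iff _).2 (good_test h)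
  · intro D B x hD hB h h2 hN
    exact sharp hD hB h h2 hN

end Pool.Agent.Results.MP_8e0b0b_nt.AlgorithmOnPrimeSets
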