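import Mathlib
import Pool.Agent.U33.B3.Str
import Pool.Agent.U33.B3.Least
import Pool.Agent.U112.CU.Alg

/-!
# An algorithm for `X³ + Y³ = A` and the multiples of every number by the primes `2` modulo `3`

`C_A : X³ + Y³ = A Z³`. There is a computable function `g : ℕ → Bool` (an algorithm that halts on all `A`)
such that, if `g A = true`, the point at infinity is the only rational point of `C_A` and of `C_{-A}`
(the empty set is a generating set and `r(A) = r(-A) = 0`), with the following properties.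

`D` is ANY cube-free number with all prime factors `1` modulo `3` (`k ≥ 0` of them); nothing is assumed on
the group `C_D(ℚ)`. The new parameter is a prime `q = 2` modulo `3`, and `A = D q` or `A = D q²`
(`e = 1, 2`). `q` runs through a class `j = 2, 5, 8` modulo `9` such that `D j ^ e` is not `±1` modulo `9`.

* PROGRESSIONS. There are `M ≥ 1` and `a` prime to `M` such that the algorithm succeeds (`g A = true`) for
  ALL the `A = D q ^ e` with a prime `q = a` modulo `M`, `q ≠ 2`; the same for the members of every finite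
  set `𝒟` of the `D` at the same time, with `e` and `j` common to them, if they are pairwise coprime.
  More generally every pattern of successes and failures for `𝒟` with a positive constant is realized by
  all the primes of a progression.
* LAW. For every finite set `𝒟` of the `D` and `V ⊆ 𝒟` the proportion of the `q` for which the algorithm
  succeeds for exactly the `D q ^ e`, `D ∈ V`, tends to the proportion `const 𝒟 V` of certain nonsingular
  linear systems over the field with three elements; it is `∏_{D ∈ V} c(D) ∏_{D ∈ 𝒟 \ V} (1 - c(D))` if the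
  `D ∈ 𝒟` are pairwise coprime, and `(2 / 3) ^ k ≤ c(D) ≤ 1 - (1 / 3) ^ k` if `k ≥ 1`.
* LEAST PRIMES. There are `K` and `c₀ > 0` such that for all large `z` and for all `𝒟` with
  `modulus 𝒟 ^ 16 ≤ z`, `modulus 𝒟 = 9 ∏ p`, which is not a multiple of one exceptional number `q₁` (larger
  than a given power of `log z`), the sum of `1 / q` over the primes `q = j` modulo `9` with the pattern `V`
  and `z < q ≤ z ^ K` is at least `c₀ const 𝒟 V`.
* STRINGS. If `const 𝒟 V > 0` then for all `m` there are infinitely many strings of `m` CONSECUTIVE primes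
  of bounded diameter which are all `j` modulo `9` and have the pattern `V`.

The laws for the criterion are due to helper33 (`Pool.Agent.U33.B3`, used for the conjecture of Birch and
Swinnerton-Dyer in `MP_4a9ea6_nt.InertPrimeTwists`); the recursiveness of the criterion and the rational
points are from the starting library (`Pool.Agent.R486.TC`). In the hand-ins `SuccessivePrimeMultiples`
and `SimultaneousMultiples` of this problem the new primes are `1` modulo `3`, `D` has a prime factor `2`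
modulo `3`, and no success is guaranteed for all primes of a progression.
-/

set_option autoImplicit false
set_option linter.style.haveILetI false

open scoped Classical

namespace Pool.Agent.Results.MP_8e0b0b_nt.InertPrimeMultiples

open Filter
open Pool.Agent.Y703.CX (lam)

/-- The point at infinity is the only rational point of `C_A`. -/
def OnlyInfinity (A : ℤ) : Prop := ∀ X Y : ℚ, X ^ 3 + Y ^ 3 ≠ A

/-- the exponents and the classes -/
def Case (e j : ℕ) : Prop := (e = 1 ∨ e = 2) ∧ (j = 2 ∨ j = 5 ∨ j = 8)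

/-- `D` is cube-free, all its prime factors are `1` modulo `3`, and `D j ^ e` is not `±1` modulo `9` -/
def Admissible (e j D : ℕ) : Prop :=
  (D ≠ 0 ∧ (∀ p : ℕ, p.Prime → ¬ p ^ 3 ∣ D) ∧ ∀ p ∈ D.primeFactors, p % 3 = 1) ∧
    (D * j ^ e) % 9 ≠ 1 ∧ (D * j ^ e) % 9 ≠ 8

/-- the linear system with the parameters `a` has only the zero solution; `lam p r` is the logarithm `c` of
the cubic residue symbol `ω ^ c` of `r` modulo a fixed prime element of norm `p` of `ℤ[ω]`, and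
`D.factorization r` is the exponent of `r` in `D` -/
def Nonsingular (D : ℕ) (a : ℕ → ZMod 3) : Prop :=
  ∀ g : ℕ → ZMod 3,
    (∀ p ∈ D.primeFactors,
      ∑ r ∈ D.primeFactors, (D.factorization r : ZMod 3) * lam p r * (g r - g p) = a p * g p) →
    ∀ p ∈ D.primeFactors, g p = 0

/-- extension by zero -/
noncomputable def ext {R : Finset ℕ} (u : R → ZMod 3) (r : ℕ) : ZMod 3 :=
  if h : r ∈ R then u ⟨r, h⟩ else 0

/-- the proportion of the nonsingular systems -/
noncomputable def c (D : ℕ) : ℝ :=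
  (Nat.card {u : D.primeFactors → ZMod 3 // Nonsingular D (ext u)} : ℝ) / 3 ^ D.primeFactors.card

/-- the prime factors of the elements of `𝒟` -/
def primes (𝒟 : Finset ℕ) : Finset ℕ := 𝒟.biUnion Nat.primeFactors

/-- the modulus -/
def modulus (𝒟 : Finset ℕ) : ℕ := 9 * ∏ r ∈ primes 𝒟, r

/-- the proportion of the vectors for which exactly the systems of the `D ∈ V` are nonsingular -/
noncomputable def const (𝒟 V : Finset ℕ) : ℝ :=
  (Nat.card {u : primes 𝒟 → ZMod 3 // ∀ D ∈ 𝒟, (Nonsingular D (ext u) ↔ D ∈ V)} : ℝ) /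
    3 ^ (primes 𝒟).card

/-- among the `D q ^ e`, `D ∈ 𝒟`, the algorithm succeeds exactly on those with `D ∈ V` -/
def Pattern (g : ℕ → Bool) (e : ℕ) (𝒟 V : Finset ℕ) (q : ℕ) : Prop :=
  ∀ D ∈ 𝒟, (g (D * q ^ e) = true ↔ D ∈ V)

/-- the number of the primes `q ≤ X`, `q = j` modulo `9`, with the property `P` -/
noncomputable def count (j : ℕ) (P : ℕ → Prop) (X : ℕ) : ℕ :=
  ((Finset.Icc 1 X).filter fun q => q.Prime ∧ q % 9 = j ∧ P q).card

section proof

open Pool.Agent.U33.B3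
open Pool.Agent.U112.CU
open Pool.Agent.Results.MP_4a9ea6_nt.JointPrimeTwists (Good good_iff)

theorem odd_of {e j D q : ℕ} (hD : Adm3 e j D) (hq : q.Prime) (h3 : 3 ≤ q) : (D * q ^ e) % 2 = 1 := by
  have h1 : ¬ 2 ∣ D := fun h => by
    have := hD.1.2.2 2 (Nat.mem_primeFactors.2 ⟨Nat.prime_two, h, hD.1.1⟩)
    omega
  have h2 : ¬ 2 ∣ q ^ e := fun h => by
    have h4 := Nat.prime_two.dvd_of_dvd_pow h
    have := (Nat.prime_dvd_prime_iff_eq Nat.prime_two hq).1 h4
    omega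
  have h5 : ¬ 2 ∣ D * q ^ e := fun h => (Nat.prime_two.dvd_mul.1 h).elim h1 h2
  omega

theorem yes_good {e j D q : ℕ} (hD : Adm3 e j D) (he : e = 1 ∨ e = 2)
    (hj : j = 2 ∨ j = 5 ∨ j = 8) (hq : q.Prime) (hq9 : q % 9 = j) (h3 : 3 ≤ q) :
    Yes (D * q ^ e) ↔ Good (D * q ^ e) := by
  have hC := cls_pow hD he hj hq hq9
  rw [Pool.Agent.Results.MP_4a9ea6_nt.JointPrimeTwists.good_iff hC,
    ← Pool.Agent.U112.CU.good_iff hC]
  have hodd := odd_of hD hq h3
  have h2 : ¬ Twice (D * q ^ e) := by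
    rintro ⟨m, -, h⟩
    omega
  unfold Yes
  tauto

theorem pattern_good {g : ℕ → Bool} (hg : ∀ A, g A = true ↔ Yes A) {e j : ℕ} {𝒟 V : Finset ℕ}
    (hD : ∀ D ∈ 𝒟, Adm3 e j D) (he : e = 1 ∨ e = 2)
    (hj : j = 2 ∨ j = 5 ∨ j = 8) {q : ℕ} (hq : q.Prime) (hq9 : q % 9 = j) (h3 : 3 ≤ q) :
    Pattern g e 𝒟 V q ↔ ∀ D ∈ 𝒟, (Good (D * q ^ e) ↔ D ∈ V) := by
  unfold Pattern
  refine forall₂_congr fun D h => ?_
  rw [hg, yes_good (hD D h) he hj hq hq9 h3]

theorem inf_primes {j : ℕ} (hj : j = 2 ∨ j = 5 ∨ j = 8) :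
    {l : ℕ | l.Prime ∧ l % 9 = j}.Infinite := by
  have hc : j.Coprime 9 := by rcases hj with rfl | rfl | rfl <;> decide
  have h := Nat.infinite_setOfPred_prime_and_modEq (q := 9) (a := j) (by norm_num) hc
  refine h.mono fun l hl => ⟨hl.1, ?_⟩
  have h1 : l % 9 = j % 9 := hl.2
  rw [h1]
  rcases hj with rfl | rfl | rfl <;> rfl

theorem count_all {j : ℕ} (hj : j = 2 ∨ j = 5 ∨ j = 8) {P : ℕ → Prop} (hP : ∀ l, P l) :
    Tendsto (fun X : ℕ => (count j P X : ℝ)) atTop atTop := by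
  refine tendsto_natCast_atTop_atTop.comp ?_
  refine tendsto_atTop_atTop_of_monotone (fun X Y h => ?_) fun K => ?_
  · unfold count
    refine Finset.card_le_card fun q hq => ?_
    rw [Finset.mem_filter] at hq ⊢
    exact ⟨Finset.Icc_subset_Icc_right h hq.1, hq.2⟩
  · obtain ⟨S, hS, hSc⟩ := (inf_primes hj).exists_subset_card_eq K
    refine ⟨S.sup id, ?_⟩
    rw [← hSc]
    unfold count
    refine Finset.card_le_card fun l hl => ?_
    have h4 := hS hl
    rw [Finset.mem_filter, Finset.mem_Icc]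
    exact ⟨⟨h4.1.pos, Finset.le_sup (f := id) hl⟩, h4.1, h4.2, hP l⟩

theorem count_top {j : ℕ} (hj : j = 2 ∨ j = 5 ∨ j = 8) :
    Tendsto (fun X : ℕ => (count j (fun _ => True) X : ℝ)) atTop atTop :=
  count_all hj fun _ => trivial

/-- two properties which agree from `3` on have the same proportion -/
theorem lim_congr {j : ℕ} (hj : j = 2 ∨ j = 5 ∨ j = 8) {P Q : ℕ → Prop}
    (h : ∀ q : ℕ, q.Prime → q % 9 = j → 3 ≤ q → (P q ↔ Q q)) {L : ℝ}
    (hQ : Tendsto (fun X : ℕ => (count j Q X : ℝ) / (count j (fun _ => True) X : ℝ)) atTop (nhds L)) :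
    Tendsto (fun X : ℕ => (count j P X : ℝ) / (count j (fun _ => True) X : ℝ)) atTop (nhds L) := by
  have key : ∀ {P Q : ℕ → Prop}, (∀ q : ℕ, q.Prime → q % 9 = j → 3 ≤ q → (P q ↔ Q q)) → ∀ X,
      count j P X ≤ count j Q X + 1 := by
    intro P Q h X
    unfold count
    refine (Finset.card_le_card (t := insert 2 ((Finset.Icc 1 X).filter fun q => q.Prime ∧
      q % 9 = j ∧ Q q)) fun q hq => ?_).trans (Finset.card_insert_le _ _)
    rw [Finset.mem_filter] at hq
    rw [Finset.mem_insert, Finset.mem_filter]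
    by_cases h2 : q = 2
    · exact Or.inl h2
    · have := hq.2.1.two_le
      exact Or.inr ⟨hq.1, hq.2.1, hq.2.2.1, (h q hq.2.1 hq.2.2.1 (by omega)).1 hq.2.2.2⟩
  have h1 := key h
  have h2 := key (P := Q) (Q := P) fun q a b c => (h q a b c).symm
  have h0 : Tendsto (fun X : ℕ => 1 / (count j (fun _ => True) X : ℝ)) atTop (nhds 0) :=
    tendsto_const_nhds.div_atTop (count_top hj)
  have h3 : Tendsto (fun X : ℕ => ((count j P X : ℝ) - count j Q X) / (count j (fun _ => True) X : ℝ))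
      atTop (nhds 0) := by
    refine squeeze_zero_norm (fun X => ?_) h0
    rw [Real.norm_eq_abs, abs_div, Nat.abs_cast]
    refine div_le_div_of_nonneg_right ?_ (Nat.cast_nonneg _)
    have e1 : (count j P X : ℝ) ≤ count j Q X + 1 := by exact_mod_cast h1 X
    have e2 : (count j Q X : ℝ) ≤ count j P X + 1 := by exact_mod_cast h2 X
    rw [abs_le]
    constructor <;> linarith
  have h4 := hQ.add h3
  rw [add_zero] at h4
  refine h4.congr fun X => ?_
  rw [← add_div]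
  congr 1
  ring

end proof

open Pool.Agent.U33.B3 in
open Pool.Agent.U112.CU in
open Pool.Agent.Results.MP_4a9ea6_nt.JointPrimeTwists (Good good_iff) in
/-- **Main theorem.** There is an algorithm `g`, halting on all natural numbers, such that:
(1) if `g A = true` then the point at infinity is the only rational point of `C_A` and of `C_{-A}`;
(2) the success on `D q ^ e` depends only on the class of `q` modulo the prime factors of `D` (and `9`);
bounds for `c`; (3) progressions; (4) the law; (5) least primes; (6) strings of consecutive primes. -/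
theorem result :
    ∃ g : ℕ → Bool, Computable g ∧
      (∀ A : ℕ, g A = true → A ≠ 0 ∧ OnlyInfinity A ∧ OnlyInfinity (-A)) ∧
      -- one number
      (∀ e j D : ℕ, Case e j → Admissible e j D →
        (∀ q q' : ℕ, q.Prime → q'.Prime → 3 ≤ q → 3 ≤ q' → q % 9 = j → q' % 9 = j →
          (∀ p ∈ D.primeFactors, q ≡ q' [MOD p]) → g (D * q ^ e) = g (D * q' ^ e)) ∧
        (2 / 3 : ℝ) ^ D.primeFactors.card ≤ c D ∧
        (D ≠ 1 → c D ≤ 1 - (1 / 3 : ℝ) ^ D.primeFactors.card)) ∧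
      -- progressions
      (∀ (e j : ℕ) (𝒟 V : Finset ℕ), Case e j → (∀ D ∈ 𝒟, Admissible e j D) → 0 < const 𝒟 V →
        ∃ M a : ℕ, 1 ≤ M ∧ a.Coprime M ∧ ∀ q : ℕ, q.Prime → 3 ≤ q → q ≡ a [MOD M] →
          q % 9 = j ∧ Pattern g e 𝒟 V q) ∧
      (∀ (e j : ℕ) (𝒟 : Finset ℕ), Case e j → (∀ D ∈ 𝒟, Admissible e j D) →
        (∀ D ∈ 𝒟, ∀ D' ∈ 𝒟, D ≠ D' → Nat.Coprime D D') →
        ∃ M a : ℕ, 1 ≤ M ∧ a.Coprime M ∧ ∀ q : ℕ, q.Prime → 3 ≤ q → q ≡ a [MOD M] →
          q % 9 = j ∧ ∀ D ∈ 𝒟, g (D * q ^ e) = true) ∧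
      -- the law
      (∀ (e j : ℕ) (𝒟 V : Finset ℕ), Case e j → (∀ D ∈ 𝒟, Admissible e j D) → V ⊆ 𝒟 →
        Tendsto (fun X : ℕ => (count j (Pattern g e 𝒟 V) X : ℝ) / (count j (fun _ => True) X : ℝ))
          atTop (nhds (const 𝒟 V)) ∧
        ((∀ D ∈ 𝒟, ∀ D' ∈ 𝒟, D ≠ D' → Nat.Coprime D D') →
          const 𝒟 V = (∏ D ∈ V, c D) * ∏ D ∈ 𝒟 \ V, (1 - c D))) ∧
      -- least primes
      (∃ (K : ℕ) (c₀ : ℝ), 1 ≤ K ∧ 0 < c₀ ∧ ∀ B : ℕ, ∃ z₀ : ℕ, ∀ z : ℕ, z₀ ≤ z →
        ∃ q₁ : ℕ, (Real.log z) ^ B < (q₁ : ℝ) ∧ ∀ (e j : ℕ) (𝒟 V : Finset ℕ), Case e j →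
          (∀ D ∈ 𝒟, Admissible e j D) → (modulus 𝒟) ^ 16 ≤ z → ¬ q₁ ∣ modulus 𝒟 →
            c₀ * const 𝒟 V ≤ ∑ q ∈ (Finset.Ioc z (z ^ K)).filter
              (fun q => q.Prime ∧ q % 9 = j ∧ Pattern g e 𝒟 V q), (1 : ℝ) / q) ∧
      -- strings
      (∀ (e j : ℕ) (𝒟 V : Finset ℕ), Case e j → (∀ D ∈ 𝒟, Admissible e j D) → 0 < const 𝒟 V →
        ∀ m : ℕ, ∃ H : ℕ, ∀ N : ℕ, ∃ q : Fin m → ℕ, StrictMono q ∧
          (∀ i, N ≤ q i ∧ (q i).Prime ∧ q i % 9 = j ∧ Pattern g e 𝒟 V (q i)) ∧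
          (∀ i i', q i' ≤ q i + H) ∧
          (∀ r : ℕ, r.Prime → ∀ i i', q i ≤ r → r ≤ q i' → ∃ k, r = q k)) := by
  obtain ⟨hd, hcomp⟩ := yes_computable
  have hg : ∀ A, decide (Yes A) = true ↔ Yes A := fun A => decide_eq_true_iff
  have hprog : ∀ (e j : ℕ) (𝒟 V : Finset ℕ), Case e j → (∀ D ∈ 𝒟, Admissible e j D) →
      0 < const 𝒟 V → ∃ M a : ℕ, 1 ≤ M ∧ a.Coprime M ∧ ∀ q : ℕ, q.Prime → 3 ≤ q → q ≡ a [MOD M] →
        q % 9 = j ∧ Pattern (fun A => decide (Yes A)) e 𝒟 V q := by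
    intro e j 𝒟 V hc h𝒟 hpos
    obtain ⟨M, a, hM, hcop, hcls⟩ := exists_class3 (V := V) h𝒟 hc.1 hc.2 hpos
    refine ⟨M, a, hM, hcop, fun q hq h3 hqa => ?_⟩
    obtain ⟨h1, h2⟩ := hcls q hq hqa
    exact ⟨h1, (pattern_good hg h𝒟 hc.1 hc.2 hq h1 h3).2 h2⟩
  refine ⟨fun A => decide (Yes A), hcomp, fun A h => ?_, fun e j D hc hD => ⟨fun q q' hq hq' h3 h3'
    hq9 hq9' h => ?_, c2_ge D, fun h1 => c2_le ?_⟩, hprog, fun e j 𝒟 hc h𝒟 hco => ?_,
    fun e j 𝒟 V hc h𝒟 hV => ⟨?_, fun hco => pconst_prod hco hV (sub_primes 𝒟)⟩, ?_,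
    fun e j 𝒟 V hc h𝒟 hpos m => ?_⟩
  · have h1 := (hg A).1 h
    exact ⟨ne_zero h1, fun X Y => (sound h1 X Y).1, fun X Y => (sound h1 X Y).2⟩
  · have h4 := good_congr hD hc.1 hc.2 hq hq9 hq' hq9' h
    rw [← yes_good hD hc.1 hc.2 hq hq9 h3, ← yes_good hD hc.1 hc.2 hq' hq9' h3'] at h4
    show decide (Yes (D * q ^ e)) = decide (Yes (D * q' ^ e))
    by_cases h5 : Yes (D * q ^ e)
    · rw [(hg _).2 h5, (hg _).2 (h4.1 h5)]
    · have h6 : ¬ Yes (D * q' ^ e) := fun h => h5 (h4.2 h)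
      simp [h5, h6]
  · rw [Finset.nonempty_iff_ne_empty]
    intro h2
    rcases Nat.primeFactors_eq_empty.1 h2 with h3 | h3
    · exact hD.1.1 h3
    · exact h1 h3
  · have hpos : 0 < const 𝒟 𝒟 := by
      have h1 : const 𝒟 𝒟 = (∏ D ∈ 𝒟, c D) * ∏ D ∈ 𝒟 \ 𝒟, (1 - c D) :=
        pconst_prod hco (Finset.Subset.refl 𝒟) (sub_primes 𝒟)
      rw [h1, Finset.sdiff_self, Finset.prod_empty, mul_one]
      exact Finset.prod_pos fun D _ => lt_of_lt_of_le (by positivity) (c2_ge D)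
    obtain ⟨M, a, h1, h2, h3⟩ := hprog e j 𝒟 𝒟 hc h𝒟 hpos
    exact ⟨M, a, h1, h2, fun q hq h3' hqa => ⟨(h3 q hq h3' hqa).1, fun D hD =>
      ((h3 q hq h3' hqa).2 D hD).2 hD⟩⟩
  · exact lim_congr hc.2 (fun q hq hq9 h3 => pattern_good hg h𝒟 hc.1 hc.2 hq hq9 h3)
      (dens_pattern h𝒟 hc.1 hc.2)
  · obtain ⟨K, c₀, hK, hc₀, h⟩ := least_pattern
    refine ⟨K, c₀, hK, hc₀, fun B => ?_⟩
    obtain ⟨z0, h0⟩ := h B
    refine ⟨max z0 3, fun z hz => ?_⟩
    obtain ⟨q1, hq1, h1⟩ := h0 z (le_trans (le_max_left _ _) hz)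
    have hz3 : 3 ≤ z := le_trans (le_max_right _ _) hz
    refine ⟨q1, hq1, fun e j 𝒟 V hc h𝒟 h16 hnd => ?_⟩
    refine (h1 e j 𝒟 V hc.1 hc.2 h𝒟 h16 hnd).trans (le_of_eq ?_)
    refine Finset.sum_congr ?_ fun _ _ => rfl
    ext q
    rw [Finset.mem_filter, Finset.mem_filter]
    refine and_congr_right fun hq => and_congr_right fun hqp => and_congr_right fun hq9 => ?_
    rw [Finset.mem_Ioc] at hq
    exact (pattern_good hg h𝒟 hc.1 hc.2 hqp hq9 (by omega)).symm
  · obtain ⟨M, a, hM, hcop, hcls⟩ := exists_class3 (V := V) h𝒟 hc.1 hc.2 hpos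
    obtain ⟨H, hH⟩ := strings_class hM hcop m
    refine ⟨H, fun N => ?_⟩
    obtain ⟨q, h1, h2, h3, h4⟩ := hH (max N 3)
    refine ⟨q, h1, fun i => ?_, h3, h4⟩
    obtain ⟨a1, a2, a3⟩ := h2 i
    obtain ⟨b1, b2⟩ := hcls _ a2 a3
    have a4 : 3 ≤ q i := le_trans (le_max_right _ _) a1
    exact ⟨le_trans (le_max_left _ _) a1, a2, b1, (pattern_good hg h𝒟 hc.1 hc.2 a2 b1 a4).2 b2⟩

end Pool.Agent.Results.MP_8e0b0b_nt.InertPrimeMultiples
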