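import Mathlib
import Pool.Agent.U695.JT.Law
import Pool.Agent.U112.CU.Alg

/-!
# An algorithm for `X³ + Y³ = A`: the multiples of several numbers by the same prime

`C_A : X³ + Y³ = A Z³`. There is a computable function `g : ℕ → Bool` (an algorithm that halts on all `A`)
such that, if `g A = true`, the point at infinity is the only rational point of `C_A` and of `C_{-A}`
(the empty set is a generating set and `r(A) = r(-A) = 0`), with the following property.

Let `j = 1, 4` or `7` be a residue class modulo `9` and call `D` admissible if it is cube-free, prime to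
`3`, has exactly one prime divisor `2` modulo `3` and any number `k` of prime divisors `1` modulo `3`, and
`D j` is not `±1` modulo `9`. Nothing is assumed on the group `C_D(ℚ)`. The parameter is a prime `ℓ = j`
modulo `9`.

* JOINT LAW. Let `D_1, …, D_n` be admissible and pairwise coprime. The successes of the algorithm on the
  `n` numbers `D_i ℓ` are independent: for every set `A` of indices the proportion of the primes `ℓ = j`
  modulo `9` for which the algorithm determines the groups for exactly the `D_i ℓ`, `i` in `A`, tends to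
  `∏_{i ∈ A} c(D_i) ∏_{i ∉ A} (1 - c(D_i))`. Here `c(D)` is the proportion of the nonsingular systems in an
  explicit family of `3 ^ (2 k + 1)` systems of linear equations over the field with three elements
  attached to `D`, and `(2 / 3) ^ (k + 1) ≤ c(D) ≤ 2 / 3`. In particular the algorithm determines all the
  `n` groups for a positive proportion of the primes.
* SEQUENCES. Let `D_0, D_1, …` be any infinite sequence of pairwise coprime admissible numbers. The set of
  the primes `ℓ` for which the frequency of the successes among the `D_i ℓ`, `i < n`, differs from the mean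
  of `c(D_0), …, c(D_{n-1})` by at least `ε` has a relative density, at most `2 exp (- ε² n / 4)`. If the
  numbers of prime divisors of the `D_i` are bounded, then for `100 %` of the primes `ℓ` the algorithm
  determines the group for at least `N` of the `D_i ℓ`, for every `N`.

The independence law for the criterion is due to helper695 (`Pool.Agent.U695.JT`, used for the conjecture
of Birch and Swinnerton-Dyer in `MP_4a9ea6_nt.JointPrimeTwists`), on the basis of helper687
(`Pool.Agent.U687.PT`); the recursiveness of the criterion and the rational points are from the starting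
library (`Pool.Agent.R486.TC`). The starting hand-ins of this problem treat the average of the successes
over one class of numbers; the hand-in `SuccessivePrimeMultiples` treats the successive prime multiples of
one `D`.
-/

set_option autoImplicit false

open scoped Classical

namespace Pool.Agent.Results.MP_8e0b0b_nt.SimultaneousMultiples

open Filter
open Pool.Agent.Y703.CX (lam)

/-- The point at infinity is the only rational point of `C_A`. -/
def OnlyInfinity (A : ℤ) : Prop := ∀ X Y : ℚ, X ^ 3 + Y ^ 3 ≠ A

/-- `D` is admissible for `j`: cube-free, prime to `3`, exactly one prime divisor `2` modulo `3`, and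
`D j` is not `±1` modulo `9` -/
def Admissible (j D : ℕ) : Prop :=
  (D ≠ 0 ∧ ¬ 3 ∣ D ∧ (∀ p : ℕ, p.Prime → ¬ p ^ 3 ∣ D) ∧
    ∃ q : ℕ, q.Prime ∧ q % 3 = 2 ∧ q ∣ D ∧ ∀ p : ℕ, p.Prime → p ∣ D → p ≠ q → p % 3 = 1) ∧
  (D * j) % 9 ≠ 1 ∧ (D * j) % 9 ≠ 8

/-- the prime divisors of `D` which are `1` modulo `3` -/
def S (D : ℕ) : Finset ℕ := D.primeFactors.filter fun p => p % 3 = 1

/-- the system with the parameters `a` (on the diagonal) and `b` (on the border) is nonsingular;
`lam p r` is the logarithm `c` of the cubic residue symbol `ω ^ c` of `r` modulo a fixed prime element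
of norm `p` of `ℤ[ω]`, and `D.factorization r` is the exponent of `r` in `D` -/
def Nonsingular (D : ℕ) (a : S D → ZMod 3) (b : D.primeFactors → ZMod 3) : Prop :=
  ∀ g : D.primeFactors → ZMod 3,
    (∀ (p : S D) (gp : ZMod 3), (∀ h : (p : ℕ) ∈ D.primeFactors, gp = g ⟨p, h⟩) →
      ∑ r : D.primeFactors, (D.factorization r : ZMod 3) * lam p r * (g r - gp) = a p * gp) →
    ∑ r : D.primeFactors, (D.factorization r : ZMod 3) * b r * g r = 0 → g = 0

/-- the proportion of the nonsingular systems -/
noncomputable def c (D : ℕ) : ℝ :=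
  (Nat.card {x : (S D → ZMod 3) × (D.primeFactors → ZMod 3) // Nonsingular D x.1 x.2} : ℝ) /
    3 ^ (2 * (S D).card + 1)

/-- the number of the primes `ℓ ≤ X`, `ℓ = j` modulo `9`, with the property `P` -/
noncomputable def count (j : ℕ) (P : ℕ → Prop) (X : ℕ) : ℕ :=
  ((Finset.Icc 1 X).filter fun l => l.Prime ∧ l % 9 = j ∧ P l).card

/-- the proportion of the primes `ℓ ≤ X`, `ℓ = j` modulo `9`, with the property `P` -/
noncomputable def proportion (j : ℕ) (P : ℕ → Prop) (X : ℕ) : ℝ :=
  (count j P X : ℝ) / (count j (fun _ => True) X : ℝ)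

/-- the frequency of the `i < n` for which the algorithm succeeds on `D i ℓ` -/
noncomputable def frequency (g : ℕ → Bool) (D : ℕ → ℕ) (n l : ℕ) : ℝ :=
  (((Finset.range n).filter fun i => g (D i * l) = true).card : ℝ) / n

/-- the mean of `c (D i)`, `i < n` -/
noncomputable def mean (D : ℕ → ℕ) (n : ℕ) : ℝ := (∑ i ∈ Finset.range n, c (D i)) / n

section proof

open Pool.Agent.U687.PT
open Pool.Agent.U695.JT
open Pool.Agent.U112.CU
open Q283.TQ (NSg mu Bs bs_mul)

theorem bs {j D : ℕ} (h : Admissible j D) : Bs D := ⟨⟨h.1.1, h.1.2.1, h.1.2.2.1⟩, h.1.2.2.2⟩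

theorem cls {D l j : ℕ} (hD : Admissible j D) (hj : j = 1 ∨ j = 4 ∨ j = 7) (hl : l.Prime)
    (hlj : l % 9 = j) (hlD : ¬ l ∣ D) : Pool.Agent.Y703.CT.Cls (D * l) := by
  have hl1 : l % 3 = 1 := by rcases hj with rfl | rfl | rfl <;> omega
  have h2 := bs_mul (bs hD) hl hl1 hlD
  have h3 : (D * l) % 9 = (D * j) % 9 := by rw [Nat.mul_mod, hlj, Nat.mul_mod D j, ← hlj, Nat.mod_mod]
  exact ⟨h2.1, by rw [h3]; exact hD.2.1, by rw [h3]; exact hD.2.2, h2.2⟩

theorem yes_iff {D l j : ℕ} (hD : Admissible j D) (hj : j = 1 ∨ j = 4 ∨ j = 7) (hl : l.Prime)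
    (hlj : l % 9 = j) (hlD : ¬ l ∣ D) : Yes (D * l) ↔ Pool.Agent.Y703.CT.NoSplit (D * l) := by
  have h2 : l ≠ 2 := by
    rintro rfl
    rcases hj with h4 | h4 | h4 <;> omega
  exact (yes_mul hl h2 hlD).trans (good_iff (cls hD hj hl hlj hlD))

theorem nonsingular_iff (D : ℕ) (a : S D → ZMod 3) (b : D.primeFactors → ZMod 3) :
    Nonsingular D a b ↔ NSg D (ext0 (S := S D) a) (ext0 b) := by
  have hS : ∀ (g : ℕ → ZMod 3) (F : ℕ → ZMod 3), ∑ r ∈ D.primeFactors, F r =
      ∑ r : D.primeFactors, F r := fun g F => (Finset.sum_coe_sort _ _).symm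
  constructor
  · intro h g h1 h2 p hp
    have h3 := h (fun r => g r) (fun p gp hgp => by
      obtain ⟨hp1, hp2⟩ := Finset.mem_filter.1 p.2
      have h4 := h1 p hp1 hp2
      rw [hgp hp1]
      have e1 : ext0 (S := S D) a p = a p := ext0_of (S := S D) a p
      rw [e1, hS g] at h4
      exact h4) (by
      rw [hS g] at h2
      rw [← h2]
      refine Finset.sum_congr rfl fun r _ => ?_
      rw [ext0_of]
      rfl)
    exact congrFun h3 ⟨p, hp⟩
  · intro h g h1 h2
    have h3 := h (ext0 g) (fun p hp hp1 => by
      have h4 := h1 ⟨p, Finset.mem_filter.2 ⟨hp, hp1⟩⟩ (g ⟨p, hp⟩) (fun _ => rfl)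
      have e1 : ext0 (S := S D) a p = a ⟨p, Finset.mem_filter.2 ⟨hp, hp1⟩⟩ :=
        ext0_of (S := S D) a ⟨p, Finset.mem_filter.2 ⟨hp, hp1⟩⟩
      have e2 : ext0 g p = g ⟨p, hp⟩ := ext0_of g ⟨p, hp⟩
      rw [hS (ext0 g), e1, e2, ← h4]
      refine Finset.sum_congr rfl fun r _ => ?_
      rw [ext0_of]
      rfl) (by
      rw [hS (ext0 g), ← h2]
      refine Finset.sum_congr rfl fun r _ => ?_
      rw [ext0_of, ext0_of]
      rfl)
    funext r
    rw [← ext0_of g r]
    exact h3 r r.2

theorem c_eq (D : ℕ) : c D = dn D := by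
  unfold c dn good
  have e : Nat.card {x : (S D → ZMod 3) × (D.primeFactors → ZMod 3) // Nonsingular D x.1 x.2} =
      Nat.card {x : (S1 D → ZMod 3) × (D.primeFactors → ZMod 3) //
        NSg D (ext0 x.1) (ext0 x.2)} :=
    Nat.card_congr (Equiv.subtypeEquivRight fun x => nonsingular_iff D x.1 x.2)
  rw [e]
  rfl

theorem prop_eq (j : ℕ) (P Q : ℕ → Prop) (i : DecidablePred Q)
    (h : ∀ l, Q l ↔ P l) (X : ℕ) :
    ((@Finset.filter _ Q i ((Finset.Icc 1 X).filter fun l => l.Prime ∧ l % 9 = j)).card : ℝ) /
      (((Finset.Icc 1 X).filter fun l => l.Prime ∧ l % 9 = j).card : ℝ) = proportion j P X := by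
  unfold proportion count
  congr 3
  · ext l
    simp only [Finset.mem_filter, h, and_assoc]
  · ext l
    simp only [Finset.mem_filter, and_true]

end proof

open Pool.Agent.U687.PT in
open Pool.Agent.U695.JT in
open Pool.Agent.U112.CU in
/-- **Main theorem.** There is an algorithm `g`, halting on all natural numbers, such that:
(1) if `g A = true` then the point at infinity is the only rational point of `C_A` and of `C_{-A}`;
(2) the bounds for `c`; (3) the joint law of the successes on `D_1 ℓ, …, D_n ℓ`; (4) for pairwise coprime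
admissible `D_1, …, D_n` the proportion of the primes `ℓ` for which `g` succeeds on all the `D_i ℓ` is
positive; (5) infinite sequences: deviations of the frequency of the successes, and arbitrarily many
successes for `100 %` of the primes. -/
theorem result :
    ∃ g : ℕ → Bool, Computable g ∧
      (∀ A : ℕ, g A = true → A ≠ 0 ∧ OnlyInfinity A ∧ OnlyInfinity (-A)) ∧
      ∀ j : ℕ, (j = 1 ∨ j = 4 ∨ j = 7) →
        (∀ D : ℕ, Admissible j D → (2 / 3 : ℝ) ^ ((S D).card + 1) ≤ c D ∧ c D ≤ 2 / 3) ∧
        (∀ (n : ℕ) (D : Fin n → ℕ), (∀ i, Admissible j (D i)) →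
          (Pairwise fun i k => Nat.Coprime (D i) (D k)) →
          (∀ A : Finset (Fin n),
            Tendsto (proportion j fun l => ∀ i, (i ∈ A ↔ g (D i * l) = true)) atTop
              (nhds (∏ i : Fin n, if i ∈ A then c (D i) else 1 - c (D i)))) ∧
          ∃ d : ℝ, 0 < d ∧
            Tendsto (proportion j fun l => ∀ i, g (D i * l) = true) atTop (nhds d)) ∧
        (∀ D : ℕ → ℕ, (∀ i, Admissible j (D i)) →
          (Pairwise fun i k => Nat.Coprime (D i) (D k)) →
          (∀ n : ℕ, 0 < n → ∀ ε : ℝ, 0 < ε → ∃ d : ℝ, d ≤ 2 * Real.exp (-(ε ^ 2 * n / 4)) ∧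
            Tendsto (proportion j fun l => ε ≤ |frequency g D n l - mean D n|) atTop (nhds d)) ∧
          ∀ K : ℕ, (∀ i, (S (D i)).card ≤ K) → ∀ N : ℕ,
            Tendsto (proportion j fun l => ∃ F : Finset ℕ, F.card = N ∧
              ∀ i ∈ F, g (D i * l) = true) atTop (nhds 1)) := by
  obtain ⟨hd, hcomp⟩ := yes_computable
  have hg : ∀ A, decide (Yes A) = true ↔ Yes A := fun A => decide_eq_true_iff
  have hce : c = dn := funext c_eq
  refine ⟨fun A => decide (Yes A), hcomp, fun A h => ?_, fun j hj => ⟨fun D hD => ⟨?_, ?_⟩,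
    fun n D hD hc => ?_, fun D hD hc => ?_⟩⟩
  · have h1 := (hg A).1 h
    exact ⟨ne_zero h1, fun X Y => (sound h1 X Y).1, fun X Y => (sound h1 X Y).2⟩
  · rw [hce]
    exact dn_ge (bs hD)
  · rw [hce]
    exact dn_le (bs hD)
  · have hlaw : ∀ A : Finset (Fin n),
        Tendsto (proportion j fun l => ∀ i, (i ∈ A ↔ decide (Yes (D i * l)) = true)) atTop
          (nhds (∏ i : Fin n, if i ∈ A then c (D i) else 1 - c (D i))) := by
      intro A
      rw [hce]
      have h := Pool.Agent.U695.JT.law D (fun i => bs (hD i)) hc hj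
        (fun i l => decide (Yes (D i * l)) = true)
        (fun i l hl hlD hlj => (hg _).trans (yes_iff (hD i) hj hl hlj hlD)) A
      refine h.congr fun X => ?_
      unfold proportion count
      simp only [and_true]
      congr!
    refine ⟨hlaw, ∏ i : Fin n, (if i ∈ (Finset.univ : Finset (Fin n)) then c (D i)
      else 1 - c (D i)), ?_, ?_⟩
    · refine Finset.prod_pos fun i _ => ?_
      rw [if_pos (Finset.mem_univ i), hce]
      exact lt_of_lt_of_le (by positivity) (dn_ge (bs (hD i)))
    · refine (hlaw Finset.univ).congr fun X => ?_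
      unfold proportion
      congr 2
      unfold count
      congr 1
      ext l
      simp
  · have hP := pat D (fun i => bs (hD i)) hc hj (fun i l => decide (Yes (D i * l)) = true)
      (fun i l hl hlD hlj => (hg _).trans (yes_iff (hD i) hj hl hlj hlD))
    have hp : ∀ i, 0 ≤ dn (D i) ∧ dn (D i) ≤ 1 := fun i => dn_mem (bs (hD i))
    refine ⟨fun n hn ε hε => ?_, fun K hK N => ?_⟩
    · obtain ⟨d, h1, h2⟩ := lln hp hP n hn ε hε
      refine ⟨d, h1, h2.congr fun X => ?_⟩
      refine prop_eq j _ _ _ (fun l => ?_) X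
      unfold frequency mean
      rw [hce]
      congr!
    · have hc0 : (0 : ℝ) < (2 / 3) ^ (K + 1) := by positivity
      refine (many hp hc0 (fun i => ?_) hP (eventually_ne hj) N).congr fun X => ?_
      · refine le_trans ?_ (dn_ge (bs (hD i)))
        exact pow_le_pow_of_le_one (by norm_num) (by norm_num) (Nat.succ_le_succ (hK i))
      · exact prop_eq j _ _ _ (fun l => Iff.rfl) X

end Pool.Agent.Results.MP_8e0b0b_nt.SimultaneousMultiples
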